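import Mathlib
import Pool.Agent.H9.Lib.R_seed8.TeamU.GalAct

/-!
# Job BR: fields of degree at most two, conjugation, places
-/

set_option autoImplicit false

namespace Pool.Agent.Y734.BR

open NumberField IsDedekindDomain

variable {L : Type} [Field L] [NumberField L]

/-- The conjugation of a field of degree at most two. -/
structure Cj (σ : L ≃ₐ[ℚ] L) : Prop where
  gal : IsGalois ℚ L
  all : ∀ τ : L ≃ₐ[ℚ] L, τ = 1 ∨ τ = σ
  deg : (Module.finrank ℚ L = 1 ∧ σ = 1) ∨ (Module.finrank ℚ L = 2 ∧ σ ≠ 1)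

theorem exists_cj (h : Module.finrank ℚ L ≤ 2) : ∃ σ : L ≃ₐ[ℚ] L, Cj σ := by
  have h0 : 0 < Module.finrank ℚ L := Module.finrank_pos
  have h12 : Module.finrank ℚ L = 1 ∨ Module.finrank ℚ L = 2 := by omega
  rcases h12 with h1 | h2
  · have hsurj : Function.Bijective (algebraMap ℚ L) := by
      refine ⟨(algebraMap ℚ L).injective, ?_⟩
      have h3 := Subalgebra.bot_eq_top_iff_finrank_eq_one.2 h1
      intro y
      have h4 : y ∈ (⊥ : Subalgebra ℚ L) := by rw [h3]; trivial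
      exact Algebra.mem_bot.1 h4
    refine ⟨1, ?_, ?_, Or.inl ⟨h1, rfl⟩⟩
    · exact IsGalois.of_algEquiv (AlgEquiv.ofBijective (Algebra.ofId ℚ L) hsurj)
    · intro τ
      left
      ext y
      obtain ⟨r, rfl⟩ := hsurj.2 y
      rw [AlgEquiv.commutes, AlgEquiv.commutes]
  · have hq : Algebra.IsQuadraticExtension ℚ L := ⟨h2⟩
    have hg : IsGalois ℚ L := inferInstance
    have hc : Nat.card (L ≃ₐ[ℚ] L) = 2 := by rw [IsGalois.card_aut_eq_finrank, h2]
    obtain ⟨σ, hσ1, hσ2⟩ := (Nat.card_eq_two_iff' (1 : L ≃ₐ[ℚ] L)).1 hc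
    refine ⟨σ, hg, ?_, Or.inr ⟨h2, hσ1⟩⟩
    intro τ
    by_cases hτ : τ = 1
    · exact Or.inl hτ
    · exact Or.inr (hσ2 τ hτ)

namespace Cj

variable {σ : L ≃ₐ[ℚ] L} (h : Cj σ)

include h

theorem mul_self : σ * σ = 1 := by
  rcases h.all (σ * σ) with h1 | h1
  · exact h1
  · have : σ = 1 := by simpa using h1
    rw [this, one_mul]

theorem invol (y : L) : σ (σ y) = y := by
  have := DFunLike.congr_fun h.mul_self y
  simpa using this

theorem symm_apply (y : L) : σ.symm y = σ y := by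
  rw [AlgEquiv.symm_apply_eq, h.invol]

theorem rat {y : L} (hy : σ y = y) : ∃ r : ℚ, algebraMap ℚ L r = y := by
  have := h.gal
  have h1 : y ∈ (⊥ : IntermediateField ℚ L) := by
    rw [IsGalois.mem_bot_iff_fixed]
    intro τ
    rcases h.all τ with h2 | h2
    · rw [h2]; rfl
    · rw [h2, hy]
  exact IntermediateField.mem_bot.1 h1

/-- sums over the complex embeddings -/
theorem sum_emb (φ : L →+* ℂ) (f : (L →+* ℂ) → ℝ) :
    2 / (Module.finrank ℚ L : ℝ) * ∑ ψ : L →+* ℂ, f ψ = f φ + f (φ.comp (σ : L →+* L)) := by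
  classical
  have hcard : Fintype.card (L →+* ℂ) = Module.finrank ℚ L := Embeddings.card L ℂ
  rcases h.deg with ⟨h1, h2⟩ | ⟨h1, h2⟩
  · rw [h1] at hcard ⊢
    obtain ⟨ψ, hψ⟩ := Fintype.card_eq_one_iff.1 hcard
    have h3 : (Finset.univ : Finset (L →+* ℂ)) = {φ} := by
      ext τ
      simp [hψ τ, hψ φ]
    rw [h3, Finset.sum_singleton]
    have h4 : φ.comp (σ : L →+* L) = φ := (hψ _).trans (hψ _).symm
    rw [h4]
    push_cast
    ring
  · have hne : φ ≠ φ.comp (σ : L →+* L) := by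
      intro h3
      apply h2
      ext y
      have h4 := DFunLike.congr_fun h3 y
      exact (φ.injective h4).symm
    have h3 : (Finset.univ : Finset (L →+* ℂ)) = {φ, φ.comp (σ : L →+* L)} := by
      symm
      apply Finset.eq_univ_of_card
      rw [Finset.card_pair hne, hcard, h1]
    rw [h3, Finset.sum_pair hne, h1]
    push_cast
    ring

/-- sums over the infinite places -/
theorem sum_inf (φ : L →+* ℂ) (f : (L → ℝ) → ℝ) :
    2 / (Module.finrank ℚ L : ℝ) * ∑ w : InfinitePlace L, w.mult * f w =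
      f (fun y => ‖φ y‖) + f (fun y => ‖φ (σ y)‖) := by
  classical
  have h1 := h.sum_emb φ (fun ψ => f (fun y => ‖ψ y‖))
  have h2 : ∑ ψ : L →+* ℂ, f (fun y => ‖ψ y‖) = ∑ w : InfinitePlace L, w.mult * f w := by
    rw [← Finset.univ.sum_fiberwise (fun φ : L →+* ℂ => InfinitePlace.mk φ)]
    refine Finset.sum_congr rfl fun w _ => ?_
    rw [← InfinitePlace.card_filter_mk_eq, ← nsmul_eq_mul, ← Finset.sum_const]
    refine Finset.sum_congr rfl fun ψ hψ => ?_
    rw [Finset.mem_filter] at hψ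
    rw [← hψ.2]
    rfl
  rw [← h2, h1]
  rfl

end Cj

/-! ### Finite places -/

open Pool.Agent.TeamU

theorem absNorm_act (σ : L ≃ₐ[ℚ] L) (v : HeightOneSpectrum (𝓞 L)) :
    Ideal.absNorm (act σ v).asIdeal = Ideal.absNorm v.asIdeal := by
  have h1 : (act σ v).asIdeal =
      v.asIdeal.map (RingOfIntegers.mapRingEquiv σ.toRingEquiv : 𝓞 L →+* 𝓞 L) :=
    actE_asIdeal σ.toRingEquiv v
  rw [Ideal.absNorm_apply, Ideal.absNorm_apply, Submodule.cardQuot_apply,
    Submodule.cardQuot_apply]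
  exact (Nat.card_congr (Ideal.quotientEquiv v.asIdeal (act σ v).asIdeal
    (RingOfIntegers.mapRingEquiv σ.toRingEquiv) h1).toEquiv).symm

theorem mk_act (σ : L ≃ₐ[ℚ] L) (v : HeightOneSpectrum (𝓞 L)) (y : L) :
    FinitePlace.mk (act σ v) (σ y) = FinitePlace.mk v y := by
  rw [FinitePlace.mk_apply, FinitePlace.mk_apply, FinitePlace.norm_embedding',
    FinitePlace.norm_embedding', val_act]
  congr 2
  simp only [absNorm_act]

end Pool.Agent.Y734.BR
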